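import Pool.Agent.H88.CR.Targets

/-!
# Row DSP: the dual of a separable reflexive space is separable
-/

set_option autoImplicit false

open Filter Topology Set Pool.Agent.H85.WMP Pool.Agent.H88.WR Pool.Agent.H88.CR

namespace Pool.Agent.H37.CR

/-- a functional which vanishes on a closed proper subspace -/
theorem exists_zero_on (𝕜 : Type) [RCLike 𝕜] (D : Type) [NormedAddCommGroup D] [NormedSpace 𝕜 D]
    (Z : Submodule 𝕜 D) (hZ : IsClosed (Z : Set D)) (v : D) (hv : v ∉ Z) :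
    ∃ Φ : StrongDual 𝕜 D, Φ v ≠ 0 ∧ ∀ z ∈ Z, Φ z = 0 := by
  haveI : IsClosed (Z : Set D) := hZ
  have hq : (Z.mkQ v : D ⧸ Z) ≠ 0 := by
    rw [Submodule.mkQ_apply, Ne, Submodule.Quotient.mk_eq_zero]
    exact hv
  obtain ⟨g, -, hg⟩ := exists_dual_vector 𝕜 (Z.mkQ v : D ⧸ Z) (norm_ne_zero_iff.mpr hq)
  refine ⟨g.comp (Z.mkQL), ?_, ?_⟩
  · have : (g.comp Z.mkQL) v = g (Z.mkQ v) := rfl
    rw [this, hg]
    exact_mod_cast norm_ne_zero_iff.mpr hq
  · intro z hz
    have h1 : (g.comp Z.mkQL) z = g (Z.mkQ z) := rfl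
    have h2 : (Z.mkQ z : D ⧸ Z) = 0 := by
      rw [Submodule.mkQ_apply, Submodule.Quotient.mk_eq_zero]
      exact hz
    rw [h1, h2, map_zero]

theorem pf_DSP (𝕜 : Type) [RCLike 𝕜] : T_DSP 𝕜 := by
  intro Y _ _ hR hS
  haveI := hS
  let y : ℕ → Y := TopologicalSpace.denseSeq Y
  have hy : DenseRange y := TopologicalSpace.denseRange_denseSeq Y
  choose g hg1 hg2 using fun k => exists_dual_vector'' 𝕜 (y k)
  let Z : Submodule 𝕜 (StrongDual 𝕜 Y) := (Submodule.span 𝕜 (Set.range g)).topologicalClosure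
  have hZc : IsClosed (Z : Set (StrongDual 𝕜 Y)) := Submodule.isClosed_topologicalClosure _
  have hZt : Z = ⊤ := by
    rw [Submodule.eq_top_iff']
    by_contra hne
    push Not at hne
    obtain ⟨v, hv⟩ := hne
    obtain ⟨Φ, hΦv, hΦZ⟩ := exists_zero_on 𝕜 _ Z hZc v hv
    obtain ⟨w, rfl⟩ := hR Φ
    have hw : w ≠ 0 := by
      rintro rfl
      apply hΦv
      simp
    have hwn : 0 < ‖w‖ / 4 := by
      have := norm_pos_iff.mpr hw
      positivity
    obtain ⟨k, hk⟩ := hy.exists_dist_lt w hwn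
    have hgk : g k w = 0 := by
      have h1 : g k ∈ Z := Submodule.le_topologicalClosure _
        (Submodule.subset_span ⟨k, rfl⟩)
      exact hΦZ _ h1
    have h3 : ‖y k‖ ≤ ‖w‖ / 4 := by
      have h4 : g k (y k) = g k (y k - w) := by rw [map_sub, hgk, sub_zero]
      have h5 : ‖g k (y k)‖ = ‖y k‖ := by
        rw [hg2 k]
        simp
      rw [← h5, h4]
      calc ‖g k (y k - w)‖ ≤ ‖g k‖ * ‖y k - w‖ := (g k).le_opNorm _
        _ ≤ 1 * ‖y k - w‖ := by
          apply mul_le_mul_of_nonneg_right (hg1 k) (norm_nonneg _)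
        _ ≤ ‖w‖ / 4 := by
          rw [one_mul, ← dist_eq_norm, dist_comm]
          exact hk.le
    have h6 : ‖w‖ ≤ ‖w - y k‖ + ‖y k‖ := by
      calc ‖w‖ = ‖(w - y k) + y k‖ := by rw [sub_add_cancel]
        _ ≤ _ := norm_add_le _ _
    have h7 : ‖w - y k‖ < ‖w‖ / 4 := by
      rw [← dist_eq_norm]
      exact hk
    linarith
  have hsep : TopologicalSpace.IsSeparable (Z : Set (StrongDual 𝕜 Y)) := by
    have h1 : TopologicalSpace.IsSeparable (Set.range g) := (Set.countable_range g).isSeparable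
    have h2 : TopologicalSpace.IsSeparable
        ((Submodule.span 𝕜 (Set.range g) : Submodule 𝕜 (StrongDual 𝕜 Y)) :
          Set (StrongDual 𝕜 Y)) := h1.span
    have h3 := h2.closure
    rw [← Submodule.topologicalClosure_coe] at h3
    exact h3
  rw [hZt, Submodule.top_coe] at hsep
  exact TopologicalSpace.isSeparable_univ_iff.mp hsep

end Pool.Agent.H37.CR
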