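import Pool.Agent.H71.CR.StmtW

/-! Row FEC of the board cwr_modules. -/

set_option autoImplicit false

open Set Pool.Agent.TK Pool.Agent.H71.VK

namespace Pool.Agent.CR

private lemma h37_idx {x y : List ℕ} (hl : y.length = x.length) {a : ℕ} (ha : a ∈ x) :
    x.idxOf a < x.length ∧ (a, y.getD (x.idxOf a) 0) ∈ x.zip y := by
  have h1 : x.idxOf a < x.length := List.idxOf_lt_length_iff.2 ha
  refine ⟨h1, ?_⟩
  have h2 : x.idxOf a < y.length := by omega
  have h3 := get_zip h1 h2
  rw [List.getElem_idxOf h1] at h3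
  rw [List.getD_eq_getElem _ _ h2]
  exact h3

/-- FEC. -/
theorem pf_FEC : T_FEC := by
  classical
  intro n k
  let W := {w : List (Bool × Fin (n.2 + 1)) // w.length ≤ n.2}
  have : Finite W := (List.finite_length_le (Bool × Fin (n.2 + 1)) n.2).to_subtype
  let G := (Fin k × Fin (n.2 + 1)) → W → Fin n.1
  refine ⟨Nat.card G, fun c hc A hA => ?_⟩
  obtain ⟨f, hf⟩ := hA
  let Q : Fin k → ℕ → List ℕ → Prop := fun t j l => l.length = j ∧ (∀ a ∈ l, a ∈ A) ∧ f l = t
  let y : Fin k → ℕ → List ℕ := fun t j => if h : ∃ l, Q t j l then h.choose else []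
  have hy : ∀ t j l, Q t j l → Q t j (y t j) := by
    intro t j l hl
    have h : ∃ l, Q t j l := ⟨l, hl⟩
    have e : y t j = h.choose := dif_pos h
    rw [e]
    exact h.choose_spec
  let rd : List ℕ → List ℕ → Bool × Fin (n.2 + 1) → ℕ := fun y x u =>
    if u.1 = true then y.getD u.2.1 0 else x.getD u.2.1 0
  let g : List ℕ → G := fun x tj w => ⟨c (w.1.map (rd (y tj.1 tj.2) x)), hc.bd _⟩
  refine ⟨fun x => Finite.equivFin G (g x), ?_⟩
  intro x x' hx hlen hxA hxA' hfe
  have hg : g x = g x' := (Finite.equivFin G).injective hfe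
  refine ⟨hlen, fun D hD s hs => ?_⟩
  by_cases hsl : n.2 < s.length
  · rw [hc.ar _ (by rw [List.length_map]; exact hsl), hc.ar _ (by rw [List.length_map]; exact hsl)]
  push Not at hsl
  -- members of the list
  have hs1 : ∀ z ∈ s, z.1 ∈ A → z.1 = z.2 ∧ z.1 ∈ D := by
    intro z hz hzA
    rcases List.mem_append.1 (hs z hz) with h | h
    · exact mem_dg.1 h
    · exact absurd hzA (hxA _ (List.of_mem_zip h).1)
  have hs2 : ∀ z ∈ s, z.1 ∉ A → z ∈ x.zip x' := by
    intro z hz hzA
    rcases List.mem_append.1 (hs z hz) with h | h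
    · exact absurd (hD _ (mem_dg.1 h).2) hzA
    · exact h
  let D0 : List ℕ := (s.filter fun z => decide (z.1 ∈ A)).map Prod.fst
  have hD0l : D0.length ≤ n.2 := by
    have h1 : D0.length ≤ s.length := by
      change ((s.filter fun z => decide (z.1 ∈ A)).map Prod.fst).length ≤ _
      rw [List.length_map]
      exact List.length_filter_le _ _
    omega
  have hD0A : ∀ a ∈ D0, a ∈ A := by
    intro a ha
    obtain ⟨z, hz, rfl⟩ := List.mem_map.1 ha
    exact of_decide_eq_true (List.mem_filter.1 hz).2
  have hD0 : ∀ z ∈ s, z.1 ∈ A → z.1 ∈ D0 := by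
    intro z hz hzA
    exact List.mem_map.2 ⟨z, List.mem_filter.2 ⟨hz, decide_eq_true hzA⟩, rfl⟩
  obtain ⟨q1, q2, q3⟩ := hy (f D0) D0.length D0 ⟨rfl, hD0A, rfl⟩
  have hSO : SO c Aᶜ D0 (y (f D0) D0.length) := hf _ _ hD0l q1.symm hD0A q2 q3.symm
  let φ : ℕ → ℕ := fun a => (y (f D0) D0.length).getD (D0.idxOf a) 0
  -- first components
  have e1 : c (s.map Prod.fst) = c (s.map fun z => if z.1 ∈ A then φ z.1 else z.1) := by
    have h1 := hSO.2 x hxA (s.map fun z => (z.1, if z.1 ∈ A then φ z.1 else z.1)) (by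
      intro w hw
      obtain ⟨z, hz, rfl⟩ := List.mem_map.1 hw
      by_cases hzA : z.1 ∈ A
      · rw [if_pos hzA]
        exact List.mem_append_right _ (h37_idx q1 (hD0 z hz hzA)).2
      · rw [if_neg hzA]
        exact List.mem_append_left _ (mem_dg.2 ⟨rfl, (List.of_mem_zip (hs2 z hz hzA)).1⟩))
    rw [List.map_map, List.map_map] at h1
    exact h1
  have e2 : c (s.map Prod.snd) = c (s.map fun z => if z.1 ∈ A then φ z.1 else z.2) := by
    have h1 := hSO.2 x' hxA' (s.map fun z => (z.2, if z.1 ∈ A then φ z.1 else z.2)) (by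
      intro w hw
      obtain ⟨z, hz, rfl⟩ := List.mem_map.1 hw
      by_cases hzA : z.1 ∈ A
      · rw [if_pos hzA]
        have h2 := (h37_idx q1 (hD0 z hz hzA)).2
        have h3 : z.2 = z.1 := (hs1 z hz hzA).1.symm
        rw [h3]
        exact List.mem_append_right _ h2
      · rw [if_neg hzA]
        exact List.mem_append_left _ (mem_dg.2 ⟨rfl, (List.of_mem_zip (hs2 z hz hzA)).2⟩))
    rw [List.map_map, List.map_map] at h1
    exact h1
  rw [e1, e2]
  -- the word
  let w : List (Bool × Fin (n.2 + 1)) := s.map fun z =>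
    if z.1 ∈ A then (true, ⟨min (D0.idxOf z.1) n.2, by omega⟩)
      else (false, ⟨min ((x.zip x').idxOf z) n.2, by omega⟩)
  have hwl : w.length ≤ n.2 := by
    change (s.map _).length ≤ _
    rw [List.length_map]
    exact hsl
  have h5 := congrArg (fun G' : G => (G' (f D0, ⟨D0.length, by omega⟩) ⟨w, hwl⟩).1) hg
  change c (w.map (rd (y (f D0) D0.length) x)) = c (w.map (rd (y (f D0) D0.length) x')) at h5
  have h6 : w.map (rd (y (f D0) D0.length) x) = s.map fun z => if z.1 ∈ A then φ z.1 else z.1 := by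
    change (s.map _).map _ = _
    rw [List.map_map]
    refine List.map_congr_left fun z hz => ?_
    by_cases hzA : z.1 ∈ A
    · simp only [Function.comp_apply, if_pos hzA]
      have h7 := (h37_idx q1 (hD0 z hz hzA)).1
      have h8 : min (D0.idxOf z.1) n.2 = D0.idxOf z.1 := by omega
      simp only [rd, h8, φ, if_true]
    · simp only [Function.comp_apply, if_neg hzA]
      have h7 := List.idxOf_lt_length_iff.2 (hs2 z hz hzA)
      have h9 := List.getElem_idxOf h7
      rw [List.length_zip] at h7
      rw [List.getElem_zip] at h9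
      have h8 : min ((x.zip x').idxOf z) n.2 = (x.zip x').idxOf z := by omega
      simp only [rd, h8, Bool.false_eq_true, if_false]
      rw [List.getD_eq_getElem _ _ (by omega)]
      exact congrArg Prod.fst h9
  have h6' : w.map (rd (y (f D0) D0.length) x') =
      s.map fun z => if z.1 ∈ A then φ z.1 else z.2 := by
    change (s.map _).map _ = _
    rw [List.map_map]
    refine List.map_congr_left fun z hz => ?_
    by_cases hzA : z.1 ∈ A
    · simp only [Function.comp_apply, if_pos hzA]
      have h7 := (h37_idx q1 (hD0 z hz hzA)).1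
      have h8 : min (D0.idxOf z.1) n.2 = D0.idxOf z.1 := by omega
      simp only [rd, h8, φ, if_true]
    · simp only [Function.comp_apply, if_neg hzA]
      have h7 := List.idxOf_lt_length_iff.2 (hs2 z hz hzA)
      have h9 := List.getElem_idxOf h7
      rw [List.length_zip] at h7
      rw [List.getElem_zip] at h9
      have h8 : min ((x.zip x').idxOf z) n.2 = (x.zip x').idxOf z := by omega
      simp only [rd, h8, Bool.false_eq_true, if_false]
      rw [List.getD_eq_getElem _ _ (by omega)]
      exact congrArg Prod.snd h9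
  rw [← h6, ← h6']
  exact h5

end Pool.Agent.CR
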