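import Pool.Agent.H71.CR.StmtB

/-! Row FIX of the board cwr_modules. -/

set_option autoImplicit false

open Set Pool.Agent.TK Pool.Agent.H71.VK

namespace Pool.Agent.CR

private lemma h37_so_mono {c : Lf} {Y Y' : Set ℕ} {x x' : List ℕ} (h : SO c Y x x')
    (hY : ∀ y ∈ Y', y ∈ Y) : SO c Y' x x' :=
  ⟨h.1, fun D hD => h.2 D fun y hy => hY y (hD y hy)⟩

private lemma h37_zip_prod (p : List (ℕ × ℕ)) : (p.map Prod.fst).zip (p.map Prod.snd) = p := by
  induction p with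
  | nil => rfl
  | cons z p ih => rw [List.map_cons, List.map_cons, List.zip_cons_cons, ih]

private lemma h37_fix {c : Lf} (P B : Set ℕ) (z T L1 : List ℕ)
    (hT : ∀ a ∈ T, a ∈ P ∨ a ∈ z) (hL : ∀ a ∈ L1, a ∈ T)
    (h : ∀ x x' : List ℕ, x.length = x'.length →
      (∀ a ∈ x, a ∈ B) → (∀ a ∈ x', a ∈ B) → Pl c c (dg L1 ++ x.zip x') →
      SO c {y | y ∉ B ∧ (y ∈ P ∨ y ∈ z)} x x') :
    Cc c T [] (Ur P T) {a | a ∈ Ur P T ∧ a ∈ B} := by
  classical
  refine ⟨fun a ha => ha.1, ?_, fun e he => absurd he List.not_mem_nil⟩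
  intro p hp hpl D hD
  let a : List ℕ := T.filter fun y => decide (y ∈ B)
  let b : List ℕ := T.filter fun y => decide (y ∉ B)
  have ha : ∀ y ∈ a, y ∈ T ∧ y ∈ B := fun y hy =>
    ⟨(List.mem_filter.1 hy).1, of_decide_eq_true (List.mem_filter.1 hy).2⟩
  have hb : ∀ y ∈ b, y ∈ T ∧ y ∉ B := fun y hy =>
    ⟨(List.mem_filter.1 hy).1, of_decide_eq_true (List.mem_filter.1 hy).2⟩
  have hab : ∀ y ∈ T, y ∈ a ∨ y ∈ b := by
    intro y hy
    by_cases hyB : y ∈ B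
    · exact Or.inl (List.mem_filter.2 ⟨hy, decide_eq_true hyB⟩)
    · exact Or.inr (List.mem_filter.2 ⟨hy, decide_eq_true hyB⟩)
  have hz : (a ++ p.map Prod.fst).zip (a ++ p.map Prod.snd) = dg a ++ p := by
    rw [List.zip_append rfl, h37_zip_prod, dg_eq_zip]
  have h1 := h (a ++ p.map Prod.fst) (a ++ p.map Prod.snd) (by simp) (by
    intro y hy
    rcases List.mem_append.1 hy with h2 | h2
    · exact (ha y h2).2
    · obtain ⟨w, hw, rfl⟩ := List.mem_map.1 h2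
      exact (hp w hw).1.2) (by
    intro y hy
    rcases List.mem_append.1 hy with h2 | h2
    · exact (ha y h2).2
    · obtain ⟨w, hw, rfl⟩ := List.mem_map.1 h2
      exact (hp w hw).2.2) (by
    rw [hz]
    refine hpl.mono fun w hw => ?_
    simp only [List.mem_append, mem_dg] at hw ⊢
    rcases hw with hw | hw | hw
    · exact Or.inl ⟨hw.1, hL _ hw.2⟩
    · exact Or.inl ⟨hw.1, (ha _ hw.2).1⟩
    · exact Or.inr hw)
  have h2 := h1.2 (D ++ b) (by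
    intro y hy
    rcases List.mem_append.1 hy with h3 | h3
    · have h4 := hD y h3
      exact ⟨fun h5 => h4.2 ⟨h4.1, h5⟩, Or.inl h4.1.1⟩
    · exact ⟨(hb y h3).2, hT y (hb y h3).1⟩)
  rw [hz] at h2
  refine h2.mono fun w hw => ?_
  simp only [List.mem_append, mem_dg] at hw ⊢
  rcases hw with hw | hw | hw
  · exact Or.inl ⟨hw.1, Or.inl hw.2⟩
  · rcases hab _ hw.2 with h3 | h3
    · exact Or.inr (Or.inl ⟨hw.1, h3⟩)
    · exact Or.inl ⟨hw.1, Or.inr h3⟩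
  · exact Or.inr (Or.inr hw)

/-- FIX. -/
theorem pf_FIX (hFCT : T_FCT) (hFIA : T_FIA) : T_FIX := by
  classical
  intro n c hc P A z hA
  have hA' : Fi n c Aᶜ := (hFIA n c hc).1 A hA
  have f1 : Fx n c {y | y ∉ A ∧ (y ∈ P ∨ y ∈ z)} A := by
    obtain ⟨E, hE, hE2⟩ := hA
    refine ⟨E, hE, fun x hx hxA => ?_⟩
    obtain ⟨e, he, hso⟩ := hE2 x hx hxA
    exact ⟨e, he, h37_so_mono hso fun y hy => hy.1⟩
  have f2 : Fx n c {y | y ∉ Aᶜ ∧ (y ∈ P ∨ y ∈ z)} Aᶜ := by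
    obtain ⟨E, hE, hE2⟩ := hA'
    refine ⟨E, hE, fun x hx hxA => ?_⟩
    obtain ⟨e, he, hso⟩ := hE2 x hx hxA
    exact ⟨e, he, h37_so_mono hso fun y hy => hy.1⟩
  obtain ⟨L1, hL1, hL1'⟩ := (hFCT n c hc _ A).1 f1
  obtain ⟨L2, hL2, hL2'⟩ := (hFCT n c hc _ Aᶜ).1 f2
  let S : List ℕ := (L1 ++ L2).filter fun y => decide (y ∈ P)
  have hS : ∀ a ∈ S, a ∈ P := fun a ha => of_decide_eq_true (List.mem_filter.1 ha).2
  have hT : ∀ a ∈ S ++ z, a ∈ P ∨ a ∈ z := by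
    intro a ha
    rcases List.mem_append.1 ha with h | h
    · exact Or.inl (hS a h)
    · exact Or.inr h
  have hLL : ∀ a ∈ L1 ++ L2, (a ∈ P ∨ a ∈ z) → a ∈ S ++ z := by
    intro a ha hPz
    by_cases haP : a ∈ P
    · exact List.mem_append_left _ (List.mem_filter.2 ⟨ha, decide_eq_true haP⟩)
    · exact List.mem_append_right _ (hPz.resolve_left haP)
  refine ⟨S, hS, ?_, ?_⟩
  · exact h37_fix P A z (S ++ z) L1 hT
      (fun a ha => hLL a (List.mem_append_left _ ha) (hL1 a ha).2) hL1'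
  · exact h37_fix P Aᶜ z (S ++ z) L2 hT
      (fun a ha => hLL a (List.mem_append_right _ ha) (hL2 a ha).2) hL2'

end Pool.Agent.CR
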