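import Pool.Agent.H71.CR.StmtB

/-! Row REX of the board cwr_modules. -/

set_option autoImplicit false

open Set Pool.Agent.TK Pool.Agent.H71.VK

namespace Pool.Agent.CR

private lemma h37_idx {x y : List ℕ} (hl : y.length = x.length) {a : ℕ} (ha : a ∈ x) :
    y.getD (x.idxOf a) 0 ∈ y ∧ (a, y.getD (x.idxOf a) 0) ∈ x.zip y := by
  have h1 : x.idxOf a < x.length := List.idxOf_lt_length_iff.2 ha
  have h2 : x.idxOf a < y.length := by omega
  have h3 := get_zip h1 h2
  rw [List.getElem_idxOf h1] at h3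
  rw [List.getD_eq_getElem _ _ h2]
  exact ⟨List.getElem_mem h2, h3⟩

/-- REX. -/
theorem pf_REX (hREP : T_REP) : T_REX := by
  classical
  intro n c hc P L F X hX
  have hcc : Cc c L F (Ur P L) (cl c P L F (X, [])) := cc_cl hX
  obtain ⟨E, hE, hE2⟩ := hREP n c hc L n.2 (fun x => ∀ a ∈ x, a ∈ cl c P L F (X, []))
  have hR : ∀ a ∈ E.flatten, a ∈ cl c P L F (X, []) := by
    intro a ha
    obtain ⟨e, he, hae⟩ := List.mem_flatten.1 ha
    exact hE e he a hae
  refine ⟨E.flatten, hR, ?_⟩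
  intro q hq hpl D hD
  have hq' : ∀ z ∈ q, (z.1 ∈ P ∧ z.1 ∉ L ∧ z.1 ∉ cl c P L F (X, [])) ∧
      (z.2 ∈ P ∧ z.2 ∉ L ∧ z.2 ∉ cl c P L F (X, [])) := hq
  have hD' : ∀ y ∈ D, y ∈ cl c P L F (X, []) := hD
  have hAL : ∀ a ∈ cl c P L F (X, []), a ∉ L := fun a ha => (cl_sub a ha).2
  change Pl c c (dg D ++ (dg (E.flatten ++ L) ++ q))
  change Pl c c (dg (E.flatten ++ L) ++ q) at hpl
  intro s hs
  by_cases hsl : n.2 < s.length
  · rw [hc.ar _ (by rw [List.length_map]; exact hsl), hc.ar _ (by rw [List.length_map]; exact hsl)]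
  push Not at hsl
  have hs1 : ∀ z ∈ s, z.1 ∈ cl c P L F (X, []) → z.1 = z.2 := by
    intro z hz hzA
    rcases List.mem_append.1 (hs z hz) with h | h
    · exact (mem_dg.1 h).1
    · rcases List.mem_append.1 h with h | h
      · exact (mem_dg.1 h).1
      · exact absurd hzA (hq' z h).1.2.2
  have hs2 : ∀ z ∈ s, z.1 ∉ cl c P L F (X, []) → (z.1 = z.2 ∧ z.1 ∈ L) ∨ z ∈ q := by
    intro z hz hzA
    rcases List.mem_append.1 (hs z hz) with h | h
    · exact absurd (hD' _ (mem_dg.1 h).2) hzA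
    · rcases List.mem_append.1 h with h | h
      · obtain ⟨h1, h2⟩ := mem_dg.1 h
        rcases List.mem_append.1 h2 with h3 | h3
        · exact absurd (hR _ h3) hzA
        · exact Or.inl ⟨h1, h3⟩
      · exact Or.inr h
  let x0 : List ℕ := (s.filter fun z => decide (z.1 ∈ cl c P L F (X, []))).map Prod.fst
  have hx0l : x0.length ≤ n.2 := by
    have h1 : x0.length ≤ s.length := by
      change ((s.filter fun z => decide (z.1 ∈ cl c P L F (X, []))).map Prod.fst).length ≤ _
      rw [List.length_map]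
      exact List.length_filter_le _ _
    omega
  have hx0A : ∀ a ∈ x0, a ∈ cl c P L F (X, []) := by
    intro a ha
    obtain ⟨z, hz, rfl⟩ := List.mem_map.1 ha
    exact of_decide_eq_true (List.mem_filter.1 hz).2
  have hx0 : ∀ z ∈ s, z.1 ∈ cl c P L F (X, []) → z.1 ∈ x0 := by
    intro z hz hzA
    exact List.mem_map.2 ⟨z, List.mem_filter.2 ⟨hz, decide_eq_true hzA⟩, rfl⟩
  obtain ⟨e, he, hel, hepl⟩ := hE2 x0 hx0l hx0A
  have hctl := hcc.ctl (x0.zip e) (by
    intro z hz
    have h1 := List.of_mem_zip hz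
    exact ⟨hx0A _ h1.1, hE e he _ h1.2⟩) hepl (q.map Prod.fst ++ q.map Prod.snd) (by
    intro a ha
    rcases List.mem_append.1 ha with h | h
    · obtain ⟨z, hz, rfl⟩ := List.mem_map.1 h
      have h1 := (hq' z hz).1
      exact ⟨⟨h1.1, h1.2.1⟩, h1.2.2⟩
    · obtain ⟨z, hz, rfl⟩ := List.mem_map.1 h
      have h1 := (hq' z hz).2
      exact ⟨⟨h1.1, h1.2.1⟩, h1.2.2⟩)
  let φ : ℕ → ℕ := fun a => e.getD (x0.idxOf a) 0
  have hφ : ∀ a ∈ x0, φ a ∈ e ∧ (a, φ a) ∈ x0.zip e := fun a ha => h37_idx hel ha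
  have e1 : c (s.map Prod.fst) =
      c (s.map fun z => if z.1 ∈ cl c P L F (X, []) then φ z.1 else z.1) := by
    have h1 := hctl (s.map fun z =>
      (z.1, if z.1 ∈ cl c P L F (X, []) then φ z.1 else z.1)) (by
      intro w hw
      obtain ⟨z, hz, rfl⟩ := List.mem_map.1 hw
      by_cases hzA : z.1 ∈ cl c P L F (X, [])
      · rw [if_pos hzA]
        exact List.mem_append_right _ (List.mem_append_right _ (hφ _ (hx0 z hz hzA)).2)
      · rw [if_neg hzA]
        rcases hs2 z hz hzA with h | h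
        · exact List.mem_append_right _ (List.mem_append_left _ (mem_dg.2 ⟨rfl, h.2⟩))
        · exact List.mem_append_left _ (mem_dg.2 ⟨rfl,
            List.mem_append_left _ (List.mem_map.2 ⟨z, h, rfl⟩)⟩))
    rw [List.map_map, List.map_map] at h1
    exact h1
  have e2 : c (s.map fun z => if z.1 ∈ cl c P L F (X, []) then φ z.1 else z.1) =
      c (s.map fun z => if z.1 ∈ cl c P L F (X, []) then φ z.1 else z.2) := by
    have h1 := hpl (s.map fun z =>
      (if z.1 ∈ cl c P L F (X, []) then φ z.1 else z.1,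
        if z.1 ∈ cl c P L F (X, []) then φ z.1 else z.2)) (by
      intro w hw
      obtain ⟨z, hz, rfl⟩ := List.mem_map.1 hw
      by_cases hzA : z.1 ∈ cl c P L F (X, [])
      · rw [if_pos hzA, if_pos hzA]
        exact List.mem_append_left _ (mem_dg.2 ⟨rfl, List.mem_append_left _
          (List.mem_flatten.2 ⟨e, he, (hφ _ (hx0 z hz hzA)).1⟩)⟩)
      · rw [if_neg hzA, if_neg hzA]
        rcases hs2 z hz hzA with h | h
        · exact List.mem_append_left _ (mem_dg.2 ⟨h.1, List.mem_append_right _ h.2⟩)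
        · exact List.mem_append_right _ h)
    rw [List.map_map, List.map_map] at h1
    exact h1
  have e3 : c (s.map Prod.snd) =
      c (s.map fun z => if z.1 ∈ cl c P L F (X, []) then φ z.1 else z.2) := by
    have h1 := hctl (s.map fun z =>
      (z.2, if z.1 ∈ cl c P L F (X, []) then φ z.1 else z.2)) (by
      intro w hw
      obtain ⟨z, hz, rfl⟩ := List.mem_map.1 hw
      by_cases hzA : z.1 ∈ cl c P L F (X, [])
      · rw [if_pos hzA]
        have h2 := (hφ _ (hx0 z hz hzA)).2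
        have h3 : z.2 = z.1 := (hs1 z hz hzA).symm
        rw [h3]
        exact List.mem_append_right _ (List.mem_append_right _ h2)
      · rw [if_neg hzA]
        rcases hs2 z hz hzA with h | h
        · exact List.mem_append_right _ (List.mem_append_left _ (mem_dg.2 ⟨rfl, h.1 ▸ h.2⟩))
        · exact List.mem_append_left _ (mem_dg.2 ⟨rfl,
            List.mem_append_right _ (List.mem_map.2 ⟨z, h, rfl⟩)⟩))
    rw [List.map_map, List.map_map] at h1
    exact h1
  exact e1.trans (e2.trans e3.symm)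

end Pool.Agent.CR
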