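import Pool.Agent.H88.CR.Targets

/-!
# Row SCB: the new norm is strictly convex
-/

set_option autoImplicit false

open Filter Topology Set Pool.Agent.H85.WMP Pool.Agent.H88.WR Pool.Agent.H88.CR

namespace Pool.Agent.H37.CR

theorem pf_SCB (𝕜 : Type) [RCLike 𝕜] (hDFE : T_DFE 𝕜) : T_SCB 𝕜 := by
  intro F _ _ F' _ _ e φ c ε κ M hS hF x y hx hy hxy
  obtain ⟨-, h2⟩ := hDFE F F' e φ c ε κ M hS
  have h3 := h2 x y hx.le hy.le
  rw [hxy] at h3
  have hp : 0 < (κ * ε) ^ 2 := by
    have := mul_pos hS.κ0 hS.ε0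
    positivity
  have h4 : Df (e x) (e y) ≤ 0 := by
    by_contra hc
    push Not at hc
    have := mul_pos hp hc
    nlinarith
  exact e.injective (hF _ _ h4)

end Pool.Agent.H37.CR
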