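import Pool.Agent.H71.CR.StmtW

/-! Row W4 of the board cwr_modules. -/

set_option autoImplicit false

open Set Pool.Agent.TK Pool.Agent.H71.VK

namespace Pool.Agent.CR

private lemma h37_so_refl {c : Lf} (Y : Set ℕ) (x : List ℕ) : SO c Y x x := by
  refine ⟨rfl, fun D _ => pl_diag fun z hz => ?_⟩
  rcases List.mem_append.1 hz with h | h
  · exact (mem_dg.1 h).1
  · rw [← dg_eq_zip] at h
    exact (mem_dg.1 h).1

set_option linter.unusedVariables false in
/-- W4. -/
theorem pf_W4 (hREP : T_REP) (hFCT : T_FCT) (hFIA : T_FIA) (hW1 : W1) (hW2 : W2) (hW3 : W3)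
    (hWFX : T_WFX) : W4 := by
  classical
  intro n c k hc hWd U hU Y
  obtain ⟨V, hV⟩ : ∃ V : Ultrafilter ℕ, ∀ i, {m | i ≤ m} ∈ V := by
    refine ⟨Filter.hyperfilter ℕ, fun i => Filter.mem_hyperfilter_of_finite_compl ?_⟩
    refine (Set.finite_lt_nat i).subset fun m hm => ?_
    have hm' : ¬ i ≤ m := hm
    exact Nat.lt_of_not_le hm'
  let lim : (ℕ → Finset ℕ) → Set ℕ := fun P => {z | {i | z ∈ P i} ∈ V}
  have hlim : ∀ P : ℕ → Finset ℕ, {i | MW n c k (Finset.range i) (P i)} ∈ V →
      Few n c (k + 1) (lim P)ᶜ (lim P) := by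
    intro P hP
    refine hW3 n c (k + 1) V hV P ?_
    filter_upwards [hP] with i hi
    exact (hW1 n c k _ _ hi).2.2
  have hult : ∀ P : ℕ → Finset ℕ, {i | MW n c k (Finset.range i) (P i)} ∈ V →
      lim P ∈ U ∨ (lim P)ᶜ ∈ U := fun P hP => hU.ult _ (hWFX n c (k + 1) _ _ (hlim P hP))
  have small : ∀ P : ℕ → Finset ℕ, {i | MW n c k (Finset.range i) (P i)} ∈ V → lim P ∈ U →
      (Y.filter fun y => y ∈ lim P).card ≤ 1 → ∃ N N' : Set ℕ, N ∈ U ∧ N'ᶜ ∈ U ∧ N' ⊆ N ∧
        Few n c (k + 1) Nᶜ N ∧ Few n c (k + 1) N'ᶜ N' ∧ ∀ y ∈ Y, y ∈ N' ∨ y ∉ N := by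
    intro P hP hPU h1
    refine ⟨lim P, ((Y.filter fun y => y ∈ lim P : Finset ℕ) : Set ℕ), hPU, ?_, ?_, hlim P hP,
      ⟨fun _ => 0, ?_⟩, ?_⟩
    · rcases hU.ult _ ((hFIA n c hc).2.2 _ (Finset.finite_toSet
        (Y.filter fun y => y ∈ lim P))) with h | h
      · exact absurd (Finset.finite_toSet _) (hU.fin _ h)
      · exact h
    · intro y hy
      exact (Finset.mem_filter.1 (Finset.mem_coe.1 hy)).2
    · intro x x' _ hlen hxA hxA' _
      have e : x = x' := by
        refine List.ext_getElem hlen fun i h2 h3 => ?_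
        exact Finset.card_le_one.1 h1 _ (Finset.mem_coe.1 (hxA _ (List.getElem_mem h2))) _
          (Finset.mem_coe.1 (hxA' _ (List.getElem_mem h3)))
      rw [e]
      exact h37_so_refl _ _
    · intro y hy
      by_cases hyP : y ∈ lim P
      · exact Or.inl (Finset.mem_coe.2 (Finset.mem_filter.2 ⟨hy, hyP⟩))
      · exact Or.inr hyP
  have key : ∀ (t : ℕ) (P : ℕ → Finset ℕ), {i | MW n c k (Finset.range i) (P i)} ∈ V →
      lim P ∈ U → (Y.filter fun y => y ∈ lim P).card ≤ t → ∃ N N' : Set ℕ, N ∈ U ∧ N'ᶜ ∈ U ∧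
        N' ⊆ N ∧ Few n c (k + 1) Nᶜ N ∧ Few n c (k + 1) N'ᶜ N' ∧ ∀ y ∈ Y, y ∈ N' ∨ y ∉ N := by
    intro t
    induction t with
    | zero =>
      intro P hP hPU h0
      exact small P hP hPU (h0.trans (Nat.zero_le 1))
    | succ t ih =>
      intro P hP hPU h0
      by_cases h1 : (Y.filter fun y => y ∈ lim P).card ≤ 1
      · exact small P hP hPU h1
      push Not at h1
      let Y0 : Finset ℕ := Y.filter fun y => y ∈ lim P
      let S : Set ℕ := {i | MW n c k (Finset.range i) (P i) ∧ Y0 ⊆ P i}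
      have hS : S ∈ V := by
        have h2 : (⋂ y ∈ Y0, {i | y ∈ P i}) ∈ (V : Filter ℕ) :=
          (Filter.biInter_finset_mem Y0).2 fun y hy => (Finset.mem_filter.1 hy).2
        filter_upwards [hP, h2] with i hi hi2
        refine ⟨hi, fun y hy => ?_⟩
        exact Set.mem_iInter₂.1 hi2 y hy
      have hex : ∀ i, ∃ A B : Finset ℕ, i ∈ S → (MW n c k (Finset.range i) A ∧
          MW n c k (Finset.range i) B ∧ MW n c k (Finset.range i) (A ∪ B) ∧ Disjoint A B ∧
          A ∪ B ⊆ P i ∧ Y0 ⊆ A ∪ B ∧ (Y0 ∩ A).Nonempty ∧ (Y0 ∩ B).Nonempty) := by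
        intro i
        by_cases hi : i ∈ S
        · obtain ⟨A, B, h⟩ := hW2 n c k _ _ hi.1 Y0 hi.2 h1
          exact ⟨A, B, fun _ => h⟩
        · exact ⟨∅, ∅, fun h => absurd h hi⟩
      choose A B hAB using hex
      have hA : {i | MW n c k (Finset.range i) (A i)} ∈ V :=
        Filter.mem_of_superset hS fun i hi => (hAB i hi).1
      have hB : {i | MW n c k (Finset.range i) (B i)} ∈ V :=
        Filter.mem_of_superset hS fun i hi => (hAB i hi).2.1
      have hQ : {i | MW n c k (Finset.range i) (A i ∪ B i)} ∈ V :=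
        Filter.mem_of_superset hS fun i hi => (hAB i hi).2.2.1
      have hsub : ∀ E : ℕ → Finset ℕ, (∀ i ∈ S, E i ⊆ P i) → lim E ⊆ lim P := by
        intro E hE z hz
        have hz' : {i | z ∈ E i} ∈ V := hz
        change {i | z ∈ P i} ∈ V
        filter_upwards [hS, hz'] with i hi hi2
        exact hE i hi hi2
      have drop : ∀ E E' : ℕ → Finset ℕ, (∀ i ∈ S, E i ⊆ P i ∧ Disjoint (E i) (E' i) ∧
          (Y0 ∩ E' i).Nonempty) → (Y.filter fun y => y ∈ lim E).card ≤ t := by
        intro E E' hE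
        have h2 : (⋃ y ∈ (Y0 : Set ℕ), {i | y ∈ E' i}) ∈ V := by
          refine Filter.mem_of_superset hS fun i hi => ?_
          obtain ⟨y, hy⟩ := (hE i hi).2.2
          rw [Finset.mem_inter] at hy
          exact Set.mem_iUnion₂.2 ⟨y, Finset.mem_coe.2 hy.1, hy.2⟩
        rw [Ultrafilter.finite_biUnion_mem_iff (Finset.finite_toSet _)] at h2
        obtain ⟨y, hy, h3⟩ := h2
        have hyE : y ∉ lim E := by
          intro h4
          have h4' : {i | y ∈ E i} ∈ V := h4
          obtain ⟨i, ⟨hi1, hi2⟩, hi3⟩ := V.nonempty_of_mem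
            (Filter.inter_mem (Filter.inter_mem hS h3) h4')
          exact Finset.disjoint_left.1 (hE i hi1).2.1 hi3 hi2
        have h5 : (Y.filter fun y => y ∈ lim E).card < Y0.card := by
          refine Finset.card_lt_card (Finset.ssubset_iff_subset_ne.2 ⟨?_, ?_⟩)
          · intro z hz
            have h6 := Finset.mem_filter.1 hz
            exact Finset.mem_filter.2 ⟨h6.1, hsub E (fun i hi => (hE i hi).1) h6.2⟩
          · intro h6
            have h7 : y ∈ Y.filter fun y => y ∈ lim E := by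
              rw [h6]
              exact Finset.mem_coe.1 hy
            exact hyE (Finset.mem_filter.1 h7).2
        have h8 : Y0.card ≤ t + 1 := h0
        omega
      have hAP : ∀ i ∈ S, A i ⊆ P i := fun i hi =>
        Finset.subset_union_left.trans (hAB i hi).2.2.2.2.1
      have hBP : ∀ i ∈ S, B i ⊆ P i := fun i hi =>
        Finset.subset_union_right.trans (hAB i hi).2.2.2.2.1
      by_cases hAU : lim A ∈ U
      · exact ih A hA hAU (drop A B fun i hi => ⟨hAP i hi, (hAB i hi).2.2.2.1,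
          (hAB i hi).2.2.2.2.2.2.2⟩)
      by_cases hBU : lim B ∈ U
      · exact ih B hB hBU (drop B A fun i hi => ⟨hBP i hi, (hAB i hi).2.2.2.1.symm,
          (hAB i hi).2.2.2.2.2.2.1⟩)
      rcases hult (fun i => A i ∪ B i) hQ with hQU | hQU
      · exfalso
        have h2 := hU.int _ (hU.int _ ((hult A hA).resolve_left hAU) _
          ((hult B hB).resolve_left hBU)) _ hQU
        refine hU.fin _ h2 ?_
        have h3 : (lim A)ᶜ ∩ (lim B)ᶜ ∩ lim (fun i => A i ∪ B i) = ∅ := by
          rw [Set.eq_empty_iff_forall_notMem]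
          rintro z ⟨⟨hzA, hzB⟩, hz⟩
          have h5 : {i | z ∈ A i} ∪ {i | z ∈ B i} ∈ V := by
            refine Filter.mem_of_superset hz fun i hi => ?_
            exact Finset.mem_union.1 hi
          rcases Ultrafilter.union_mem_iff.1 h5 with h6 | h6
          · exact hzA h6
          · exact hzB h6
        rw [h3]
        exact Set.finite_empty
      · refine ⟨lim P, lim (fun i => A i ∪ B i), hPU, hQU,
          hsub _ fun i hi => (hAB i hi).2.2.2.2.1, hlim P hP, hlim _ hQ, ?_⟩
        intro y hy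
        by_cases hyP : y ∈ lim P
        · refine Or.inl (Filter.mem_of_superset hS fun i hi => ?_)
          exact (hAB i hi).2.2.2.2.2.1 (Finset.mem_filter.2 ⟨hy, hyP⟩)
        · exact Or.inr hyP
  have hP0 : {i | MW n c k (Finset.range i) (Finset.range i)} ∈ V := by
    refine Filter.mem_of_superset (hV 1) fun i hi => ?_
    have hi' : 1 ≤ i := hi
    exact hWd (Finset.range i) ⟨0, Finset.mem_range.2 (by omega)⟩
  have hun : lim (fun i => Finset.range i) = univ := by
    rw [Set.eq_univ_iff_forall]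
    intro z
    refine Filter.mem_of_superset (hV (z + 1)) fun i hi => ?_
    have hi' : z + 1 ≤ i := hi
    exact Finset.mem_range.2 (by omega)
  have hPU0 : lim (fun i => Finset.range i) ∈ U := by
    rcases hult _ hP0 with h | h
    · exact h
    · exfalso
      rw [hun, Set.compl_univ] at h
      exact hU.fin _ h Set.finite_empty
  exact key _ (fun i => Finset.range i) hP0 hPU0 le_rfl

end Pool.Agent.CR
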