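import Pool.Agent.H71.CR.StmtW

/-! Row W5 of the board cwr_modules. -/

set_option autoImplicit false

open Set Pool.Agent.TK Pool.Agent.H71.VK

namespace Pool.Agent.CR

private lemma h37_split (p : ℕ → Bool) : ∀ x x' : List ℕ, x.length = x'.length →
    (∀ z ∈ x.zip x', p z.1 = p z.2) → (x.filter p).length = (x'.filter p).length ∧
      ∀ z ∈ x.zip x', p z.1 = true → z ∈ (x.filter p).zip (x'.filter p) := by
  intro x
  induction x with
  | nil =>
    intro x' hl _
    have e : x' = [] := List.length_eq_zero_iff.1 hl.symm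
    subst e
    simp
  | cons a x ih =>
    intro x' hl hp
    cases x' with
    | nil => simp at hl
    | cons a' x' =>
      rw [List.length_cons, List.length_cons] at hl
      have h0 : p a = p a' := hp (a, a') (by simp)
      obtain ⟨h1, h2⟩ := ih x' (by omega) fun z hz => hp z (by
        rw [List.zip_cons_cons]
        exact List.mem_cons_of_mem _ hz)
      by_cases ha : p a = true
      · have ha' : p a' = true := h0 ▸ ha
        rw [List.filter_cons_of_pos ha, List.filter_cons_of_pos ha']
        refine ⟨by simp [h1], ?_⟩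
        intro z hz hpz
        rw [List.zip_cons_cons] at hz ⊢
        rcases List.mem_cons.1 hz with h | h
        · rw [h]
          exact List.mem_cons_self
        · exact List.mem_cons_of_mem _ (h2 z h hpz)
      · have ha' : ¬ p a' = true := h0 ▸ ha
        rw [List.filter_cons_of_neg ha, List.filter_cons_of_neg ha']
        refine ⟨h1, ?_⟩
        intro z hz hpz
        rw [List.zip_cons_cons] at hz
        rcases List.mem_cons.1 hz with h | h
        · rw [h] at hpz
          exact absurd hpz ha
        · exact h2 z h hpz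

/-- W5. -/
theorem pf_W5 (hFEC : T_FEC) : W5 := by
  classical
  intro n k
  obtain ⟨m1, hm1⟩ := hFEC n k
  let T := (Fin (n.2 + 1) → Bool) × Fin k × Fin m1
  refine ⟨Nat.card T, fun c hc N N' hN hF hF' => ?_⟩
  obtain ⟨f', hf'⟩ := hF'
  obtain ⟨g, hg⟩ := hm1 c hc N hF
  let p : ℕ → Bool := fun a => decide (a ∈ N')
  let p' : ℕ → Bool := fun a => decide (a ∉ N')
  let F : List ℕ → T := fun x => (fun i => p (x.getD i.1 0), f' (x.filter p), g (x.filter p'))
  refine ⟨fun x => Finite.equivFin T (F x), ?_⟩
  intro x x' hx hlen hxA hxA' hfe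
  have hF1 : F x = F x' := (Finite.equivFin T).injective hfe
  have e1 : (fun i : Fin (n.2 + 1) => p (x.getD i.1 0)) = fun i => p (x'.getD i.1 0) :=
    congrArg Prod.fst hF1
  have e2 : f' (x.filter p) = f' (x'.filter p) := congrArg (fun t : T => t.2.1) hF1
  have e3 : g (x.filter p') = g (x'.filter p') := congrArg (fun t : T => t.2.2) hF1
  have hp : ∀ z ∈ x.zip x', p z.1 = p z.2 := by
    intro z hz
    obtain ⟨i, h1, h2, rfl⟩ := zip_get hz
    have h3 := congrFun e1 ⟨i, by omega⟩
    simp only at h3
    rw [List.getD_eq_getElem _ _ h1, List.getD_eq_getElem _ _ h2] at h3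
    exact h3
  have hp' : ∀ z ∈ x.zip x', p' z.1 = p' z.2 := by
    intro z hz
    have h1 := hp z hz
    simp only [p, decide_eq_decide] at h1
    simp only [p', h1]
  obtain ⟨s1, s2⟩ := h37_split p x x' hlen hp
  obtain ⟨s3, s4⟩ := h37_split p' x x' hlen hp'
  have m1 : ∀ (l : List ℕ), ∀ a ∈ l.filter p, a ∈ N' := fun l a ha =>
    of_decide_eq_true (List.mem_filter.1 ha).2
  have m2 : ∀ (l : List ℕ), (∀ a ∈ l, a ∈ N' ∨ a ∉ N) → ∀ a ∈ l.filter p', a ∉ N ∧ a ∉ N' := by
    intro l hl a ha
    have h1 := List.mem_filter.1 ha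
    have h2 : a ∉ N' := of_decide_eq_true h1.2
    exact ⟨(hl a h1.1).resolve_left h2, h2⟩
  have k1 := hf' (x.filter p) (x'.filter p) ((List.length_filter_le _ _).trans hx) s1 (m1 x)
    (m1 x') e2
  have k2 := hg (x.filter p') (x'.filter p') ((List.length_filter_le _ _).trans hx) s3
    (fun a ha => (m2 x hxA a ha).1) (fun a ha => (m2 x' hxA' a ha).1) e3
  refine ⟨hlen, fun D hD => ?_⟩
  have h1 := k1.2 (x.filter p' ++ D) (by
    intro a ha
    rcases List.mem_append.1 ha with h | h
    · exact (m2 x hxA a h).2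
    · exact (hD a h).2)
  have h2 := k2.2 (x'.filter p ++ D) (by
    intro a ha
    rcases List.mem_append.1 ha with h | h
    · exact hN (m1 x' a h)
    · exact (hD a h).1)
  refine h1.comp h2 fun z hz => ?_
  rcases List.mem_append.1 hz with h | h
  · obtain ⟨h3, h4⟩ := mem_dg.1 h
    refine ⟨z.1, List.mem_append_left _ (mem_dg.2 ⟨rfl, List.mem_append_right _ h4⟩),
      List.mem_append_left _ (mem_dg.2 ⟨h3, List.mem_append_right _ h4⟩)⟩
  · by_cases hz1 : z.1 ∈ N'
    · have h3 := s2 z h (decide_eq_true hz1)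
      refine ⟨z.2, List.mem_append_right _ h3, List.mem_append_left _ (mem_dg.2 ⟨rfl, ?_⟩)⟩
      exact List.mem_append_left _ (List.of_mem_zip h3).2
    · have h3 := s4 z h (decide_eq_true hz1)
      refine ⟨z.1, List.mem_append_left _ (mem_dg.2 ⟨rfl, ?_⟩), List.mem_append_right _ h3⟩
      exact List.mem_append_left _ (List.of_mem_zip h3).1

end Pool.Agent.CR
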